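import Pool.Agent.H37.CNT.Stmts

/-!
# Board `cnt`, row PU4 (helper2): the conductor is multiplied by `m`
-/

set_option autoImplicit false

namespace Pool.CND

open Finset

/-- the elements of `ram 0` are those which fix the place -/
private theorem pu4_ram0 {k L G : Type} [Field k] [Field L] [Algebra k L] [Group G] (P : Place k L)
    (ρ : G →* (L ≃ₐ[k] L)) (g : G) : g ∈ ram P ρ 0 ↔ Fixes P (ρ g) := by
  constructor
  · intro h
    exact h.1
  · intro h
    refine ⟨h, fun u hu0 hu1 => ?_⟩
    have h1 : P.Ge (ρ g u - u) 1 :=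
      P.ge_sub (h.ge (Or.inr (by rw [hu1]))) (Or.inr (by rw [hu1]))
    rcases h1 with h1 | h1
    · exact Or.inl (sub_eq_zero.1 h1)
    · exact Or.inr (by simpa using h1)

private theorem pu4_sum (m : ℕ) (hm : 1 ≤ m) (f g : ℕ → ℚ)
    (h : ∀ i, 1 ≤ i → f i = g ((i + m - 1) / m)) (l : ℕ) :
    ∑ i ∈ Icc 1 (m * l), f i = m * ∑ i ∈ Icc 1 l, g i := by
  induction l with
  | zero => simp
  | succ l ih =>
    have e1 : Icc 1 (m * (l + 1)) = Icc 1 (m * l) ∪ Icc (m * l + 1) (m * l + m) := by
      ext i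
      simp only [mem_union, mem_Icc]
      have : m * (l + 1) = m * l + m := by ring
      omega
    have hdis : Disjoint (Icc 1 (m * l)) (Icc (m * l + 1) (m * l + m)) := by
      rw [Finset.disjoint_left]
      intro i hi hi'
      rw [mem_Icc] at hi hi'
      omega
    rw [e1, Finset.sum_union hdis, ih, Finset.sum_Icc_succ_top (by omega : 1 ≤ l + 1)]
    have e2 : ∀ i ∈ Icc (m * l + 1) (m * l + m), f i = g (l + 1) := by
      intro i hi
      rw [mem_Icc] at hi
      rw [h i (by omega)]
      congr 1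
      refine Nat.div_eq_of_lt_le ?_ ?_
      · have : (l + 1) * m = m * l + m := by ring
        omega
      · have : (l + 1 + 1) * m = m * l + m + m := by ring
        omega
    rw [Finset.sum_congr rfl e2, Finset.sum_const, Nat.card_Icc, nsmul_eq_mul]
    have e3 : m * l + m + 1 - (m * l + 1) = m := by omega
    rw [e3]
    ring

theorem pu4_thm (hVEC : S_VEC) (hRAM : S_RAM) (hINJ : S_INJ) (hLO2 : S_LO2) (hWPG : S_WPG)
    (hTMO : S_TMO) : S_PU4 := by
  intro p k L L' G _ _ _ _ _ _ _ P t m j s P' ρ ρ' c hp hck hm hpm hcov hcop B hj hs hcon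
  have hm' : (1 : ℤ) ≤ m := by exact_mod_cast hm
  have hjinj : Function.Injective j := j.toRingHom.injective
  have hj0 : ∀ z : L, j z = 0 ↔ z = 0 := fun z => map_eq_zero_iff j hjinj
  have ht0 : t ≠ 0 := by
    intro h
    have htr := hcov.trans
    rw [h] at htr
    exact htr isAlgebraic_zero
  have hs0 : s ≠ 0 := by
    intro h
    have h1 := B.pow
    rw [h, zero_pow (by omega)] at h1
    exact ht0 ((hj0 t).1 h1.symm)
  -- the same elements fix the two places
  have hfix : ∀ g : G, Fixes P' (ρ' g) ↔ Fixes P (ρ g) := by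
    intro g
    constructor
    · intro h z hz
      have h1 := h (j z) (fun h0 => hz ((hj0 z).1 h0))
      have hgz : ρ g z ≠ 0 := by
        intro h0
        exact hz ((map_eq_zero (ρ g)).1 h0)
      rw [hj, B.ord _ hgz, B.ord _ hz] at h1
      exact mul_left_cancel₀ (by omega) h1
    · intro h z hz
      obtain ⟨d, hd⟩ := B.span z
      have hex : ∃ i, d i ≠ 0 := by
        by_contra hc
        push Not at hc
        apply hz
        rw [hd]
        exact Finset.sum_eq_zero fun i _ => by rw [hc i, map_zero, zero_mul]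
      have hdist : ∀ i i' : Fin m, i ≠ i' →
          ¬ (m : ℤ) ∣ P'.ord (s ^ (i : ℕ)) - P'.ord (s ^ (i' : ℕ)) := by
        intro i i' hne hdvd
        rw [P'.ord_pow hs0, P'.ord_pow hs0, B.ord_s, ← sub_mul] at hdvd
        have h2 : (m : ℤ) ∣ ((i : ℕ) : ℤ) - ((i' : ℕ) : ℤ) :=
          hcop.symm.dvd_of_dvd_mul_right hdvd
        have h3 := i.2
        have h4 := i'.2
        obtain ⟨q, hq⟩ := h2
        have h5 : (i : ℕ) = (i' : ℕ) := by
          have h6 : q = 0 := by
            by_contra hq0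
            rcases lt_or_gt_of_ne hq0 with hlt | hgt
            · have : (m : ℤ) * q ≤ m * (-1) := mul_le_mul_of_nonneg_left (by omega) (by omega)
              omega
            · have : (m : ℤ) * 1 ≤ m * q := mul_le_mul_of_nonneg_left (by omega) (by omega)
              omega
          rw [h6, mul_zero] at hq
          omega
        exact hne (Fin.ext h5)
      have key : ∀ e : Fin m → L, (∀ i, e i = 0 ∨ (m : ℤ) ∣ P'.ord (j (e i))) := by
        intro e i
        by_cases he : e i = 0
        · exact Or.inl he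
        · exact Or.inr ⟨P.ord (e i), B.ord _ he⟩
      have hV : ∀ e : Fin m → L, (∃ i, e i ≠ 0) → ∃ i0, e i0 ≠ 0 ∧
          P'.ord (∑ i, j (e i) * s ^ (i : ℕ)) = m * P.ord (e i0) + (i0 : ℕ) * P'.ord s ∧
          ∀ i, e i ≠ 0 → m * P.ord (e i0) + (i0 : ℕ) * P'.ord s ≤
            m * P.ord (e i) + (i : ℕ) * P'.ord s := by
        intro e he
        obtain ⟨i1, hi1⟩ := he
        obtain ⟨-, i0, h1, h2, h3⟩ := hVEC k L' (Fin m) P' m (fun i => s ^ (i : ℕ))
          (fun i => j (e i)) hm (fun i => pow_ne_zero _ hs0) hdist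
          (fun i => (key e i).imp (fun h0 => by show j (e i) = 0; rw [h0, map_zero]) id)
          ⟨i1, fun h0 => hi1 ((hj0 _).1 h0)⟩
        have hval : ∀ i, e i ≠ 0 → P'.ord (j (e i) * s ^ (i : ℕ)) =
            m * P.ord (e i) + (i : ℕ) * P'.ord s := by
          intro i hi
          rw [P'.ord_mul _ _ (fun h0 => hi ((hj0 _).1 h0)) (pow_ne_zero _ hs0), B.ord _ hi,
            P'.ord_pow hs0]
        have h10 : e i0 ≠ 0 := fun h0 => h1 (by show j (e i0) = 0; rw [h0, map_zero])
        refine ⟨i0, h10, ?_, ?_⟩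
        · rw [← hval i0 h10]
          exact h2
        · intro i hi
          rw [← hval i0 h10, ← hval i hi]
          exact h3 i (fun h0 => hi ((hj0 _).1 h0))
      have hgz : ρ' g z = ∑ i, j (ρ g (d i)) * s ^ (i : ℕ) := by
        rw [hd, map_sum]
        refine Finset.sum_congr rfl fun i _ => ?_
        rw [map_mul, map_pow, hj, hs]
      have hne' : ∀ i, ρ g (d i) ≠ 0 ↔ d i ≠ 0 := fun i =>
        not_congr (map_eq_zero (ρ g))
      obtain ⟨i0, ha0, ha1, ha2⟩ := hV d hex
      obtain ⟨i1, hb0, hb1, hb2⟩ := hV (fun i => ρ g (d i))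
        (hex.imp fun i hi => (hne' i).2 hi)
      rw [hgz, hb1]
      conv_rhs => rw [hd, ha1]
      have hb0' : d i1 ≠ 0 := (hne' i1).1 hb0
      have e1 := ha2 i1 hb0'
      have e2 := hb2 i0 ((hne' i0).2 ha0)
      rw [h _ hb0', h _ ha0] at e2
      rw [h _ hb0']
      omega
  -- `g = 1` can be read off on both sides
  have hρ1 : ∀ g : G, ρ g = 1 ↔ g = 1 := fun g =>
    ⟨fun h => hcov.inj (by rw [h, map_one]), fun h => by rw [h, map_one]⟩
  have hρ'1 : ∀ g : G, ρ' g = 1 ↔ g = 1 := by
    intro g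
    refine ⟨fun h => ?_, fun h => by rw [h, map_one]⟩
    rw [← hρ1]
    ext z
    have h1 := hj g z
    rw [h] at h1
    exact (hjinj h1).symm
  -- wild elements
  have hone : (1 : G) ∈ ram P' ρ' 1 := by
    refine ⟨by rw [map_one]; exact Fixes.one, fun u _ _ => Or.inl ?_⟩
    rw [map_one]
    rfl
  have hwild : ∀ (r : ℕ) (g : G), Fixes P' (ρ' g) → g ^ (p ^ r) = 1 → g ∈ ram P' ρ' 1 := by
    intro r
    induction r with
    | zero =>
      intro g _ h
      rw [pow_zero, pow_one] at h
      rw [h]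
      exact hone
    | succ r ih =>
      intro g hg h
      refine hTMO p k L' G P' ρ' hp hck g ((pu4_ram0 P' ρ' g).2 hg) ?_
      refine ih (g ^ p) (by rw [map_pow]; exact hg.pow p) ?_
      rw [← pow_mul, ← pow_succ']
      exact h
  -- the ramification numbers
  have hb : ∀ g : G, g ≠ 1 → Fixes P (ρ g) → 1 ≤ P'.b (ρ' g) →
      P'.b (ρ' g) = m * P.b (ρ g) := by
    intro g hg1 hg hb1
    have hg' : Fixes P' (ρ' g) := (hfix g).2 hg
    have hne : ρ' g P'.pi ≠ P'.pi := by
      intro h0
      exact hg1 ((hρ'1 g).1 (hINJ k L' P' (ρ' g) P'.pi hg' P'.pi_ne P'.ord_pi h0))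
    have hjpi : j P.pi ≠ 0 := fun h0 => P.pi_ne ((hj0 _).1 h0)
    have hord : P'.ord (j P.pi) = m := by rw [B.ord _ P.pi_ne, P.ord_pi, mul_one]
    have h1 := (hLO2 p k L' P' (ρ' g) P'.pi (P'.b (ρ' g)) hp hck hg' P'.pi_ne P'.ord_pi hb1 hne
      (by unfold Place.b; ring) (j P.pi) hjpi).1 (by
        rw [hord, Int.natCast_dvd_natCast]
        exact hpm)
    have hne2 : ρ g P.pi - P.pi ≠ 0 := by
      intro h0
      apply h1.1
      rw [hj, sub_eq_zero.1 h0]
    have h2 : P'.ord (ρ' g (j P.pi) - j P.pi) = m * (P.b (ρ g) + 1) := by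
      rw [hj, ← map_sub, B.ord _ hne2]
      unfold Place.b
      ring
    rw [h2, hord] at h1
    have h3 := h1.2
    linarith
  have hram : ∀ i : ℕ, 1 ≤ i → ram P' ρ' i = ram P ρ ((i + m - 1) / m) := by
    intro i hi
    have hi2 : 1 ≤ (i + m - 1) / m := (Nat.one_le_div_iff (by omega)).2 (by omega)
    ext g
    rw [hRAM k L' G P' ρ' g i hi, hRAM k L G P ρ g _ hi2, hfix g, hρ'1, hρ1]
    refine and_congr_right fun hg => ?_
    by_cases hg1 : g = 1
    · simp [hg1]
    simp only [hg1, false_or]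
    have hdiv : ∀ b : ℤ, 1 ≤ b → (((i + m - 1) / m : ℕ) : ℤ) ≤ b → (i : ℤ) ≤ m * b := by
      intro b hb1 h
      lift b to ℕ using by omega
      have h1 : (i + m - 1) / m ≤ b := by exact_mod_cast h
      have h2 : i + m - 1 < (b + 1) * m := (Nat.div_lt_iff_lt_mul (by omega)).1 (by omega)
      have h3 : (b + 1) * m = m * b + m := by ring
      have h4 : i ≤ m * b := by omega
      exact_mod_cast h4
    constructor
    · intro h
      have hb1 : 1 ≤ P'.b (ρ' g) := by omega
      have hbm := hb g hg1 hg hb1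
      have hbpos : 1 ≤ P.b (ρ g) := by
        by_contra hc
        rw [not_le] at hc
        have : (m : ℤ) * P.b (ρ g) ≤ m * 0 := mul_le_mul_of_nonneg_left (by omega) (by omega)
        omega
      rw [hbm] at h
      generalize P.b (ρ g) = b at h hbpos
      lift b to ℕ using by omega
      have h1 : i ≤ m * b := by exact_mod_cast h
      have h2 : (i + m - 1) / m ≤ b := by
        rw [← Nat.lt_succ_iff, Nat.div_lt_iff_lt_mul (by omega)]
        have h3 : b.succ * m = m * b + m := by rw [Nat.succ_eq_add_one]; ring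
        omega
      exact_mod_cast h2
    · intro h
      have hbpos : 1 ≤ P.b (ρ g) := by omega
      have hmem : g ∈ ram P ρ 1 := by
        rw [hRAM k L G P ρ g 1 le_rfl]
        exact ⟨hg, Or.inr (by exact_mod_cast hbpos)⟩
      obtain ⟨r, hr⟩ := hWPG p k L G P ρ hp hck hcov.inj g hmem
      have hmem' := hwild r g ((hfix g).2 hg) hr
      rw [hRAM k L' G P' ρ' g 1 le_rfl] at hmem'
      have hb1 : 1 ≤ P'.b (ρ' g) := by
        rcases hmem'.2 with h0 | h0
        · exact absurd ((hρ'1 g).1 h0) hg1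
        · exact_mod_cast h0
      rw [hb g hg1 hg hb1]
      exact hdiv _ hbpos h
  have hram0 : ram P' ρ' 0 = ram P ρ 0 := by
    ext g
    rw [pu4_ram0, pu4_ram0, hfix]
  obtain ⟨l, hl1, hl2, hl3⟩ := hcon
  refine ⟨m * l, ?_, ?_, ?_⟩
  · rcases Nat.eq_zero_or_pos l with h0 | h0
    · rw [h0, mul_zero, hram0]
      rwa [h0] at hl1
    · rw [hram (m * l) (Nat.mul_pos (by omega) h0)]
      have : (m * l + m - 1) / m = l := by
        refine Nat.div_eq_of_lt_le ?_ ?_
        · have : l * m = m * l := Nat.mul_comm _ _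
          omega
        · have : (l + 1) * m = m * l + m := by ring
          omega
      rw [this]
      exact hl1
  · rw [hram (m * l + 1) (by omega)]
    have : (m * l + 1 + m - 1) / m = l + 1 := by
      refine Nat.div_eq_of_lt_le ?_ ?_
      · have : (l + 1) * m = m * l + m := by ring
        omega
      · have : (l + 1 + 1) * m = m * l + m + m := by ring
        omega
    rw [this]
    exact hl2
  · rw [hram0, hl3, pu4_sum m hm (fun i => ((ram P' ρ' i).ncard : ℚ))
      (fun i => ((ram P ρ i).ncard : ℚ)) (fun i hi => by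
        show ((ram P' ρ' i).ncard : ℚ) = ((ram P ρ ((i + m - 1) / m)).ncard : ℚ)
        rw [hram i hi]) l]
    rw [mul_div_assoc]

end Pool.CND
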