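import Pool.Agent.H37.CNT.Stmts

/-!
# Board `cnt`, row PUL (helper2): `m c` is a conductor if `c` is
-/

set_option autoImplicit false

namespace Pool.CND

open Finset

theorem pul_thm (h1 : S_PU1) (h2 : S_PU2) (h3 : S_PU3) (h4 : S_PU4) (hRMX : S_RMX)
    (hSLX : S_SLX) : S_PUL := by
  intro p k G _ _ _ m c hp hck hm hpm hco hc
  obtain ⟨L, fL, aL, ρ, t, hcov, P, hPt, hcon⟩ := hc
  have ht0 : t ≠ 0 := by
    intro h
    have htr := hcov.trans
    rw [h] at htr
    exact htr isAlgebraic_zero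
  -- the stabiliser
  let J : Subgroup G :=
    { carrier := {g | Fixes P (ρ g)}
      mul_mem' := by
        intro a b ha hb
        rw [Set.mem_ofPred_eq] at ha hb ⊢
        rw [map_mul]
        exact ha.mul hb
      one_mem' := by
        rw [Set.mem_ofPred_eq, map_one]
        exact Fixes.one
      inv_mem' := by
        intro a ha
        rw [Set.mem_ofPred_eq] at ha ⊢
        rw [map_inv]
        exact ha.inv }
  have hJ : ∀ g, g ∈ J ↔ g ∈ (⊤ : Subgroup G) ∧ Fixes P (ρ g) := by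
    intro g
    exact ⟨fun h => ⟨Subgroup.mem_top g, h⟩, fun h => h.2⟩
  obtain ⟨w, hw0, hwfix, hword⟩ := hRMX k L G P ρ ⊤ J hJ
  have hwt : w ∈ IntermediateField.adjoin k {t} :=
    (hcov.fixed w).1 fun g => hwfix g (Subgroup.mem_top g)
  have hle : IntermediateField.adjoin k {t} ≤ IntermediateField.adjoin k {t⁻¹} := by
    rw [IntermediateField.adjoin_simple_le_iff]
    have h5 := IntermediateField.inv_mem _ (IntermediateField.mem_adjoin_simple_self k t⁻¹)
    rwa [inv_inv] at h5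
  have he1 : 1 ≤ (P.ord t).natAbs := by omega
  have hdiv := (hSLX k L P t⁻¹ (P.ord t).natAbs he1 (inv_ne_zero ht0)
    (by rw [P.ord_inv ht0]; omega) w (hle hwt) hw0).1
  rw [hword, Int.natCast_dvd_natCast] at hdiv
  have hdiv2 : (P.ord t).natAbs ∣ Nat.card G := hdiv.trans (Subgroup.card_subgroup_dvd_card J)
  have hcop : IsCoprime (P.ord t) (m : ℤ) := by
    rw [Int.isCoprime_iff_nat_coprime, Int.natAbs_natCast]
    exact (Nat.Coprime.coprime_dvd_right hdiv2 hco).symm
  obtain ⟨L', fL', aL', j, s, P', hPB⟩ := h1 k L P t m hm ht0 hcop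
  have hact : ∀ g : G, ρ g t = t := fun g =>
    (hcov.fixed t).2 (IntermediateField.mem_adjoin_simple_self k t) g
  obtain ⟨ρ', hρ1, hρ2⟩ := h2 k L L' G P t m j s P' ρ hm ht0 hPB hact
  refine ⟨L', fL', aL', ρ', s, h3 k L L' G P t m j s P' ρ ρ' hm hcov hPB hρ1 hρ2, P', ?_,
    h4 p k L L' G P t m j s P' ρ ρ' c hp hck hm hpm hcov hcop hPB hρ1 hρ2 hcon⟩
  rw [hPB.ord_s]
  exact hPt

end Pool.CND
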